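import Pool.Agent.MP_4f4d9f_gt.Base
import Pool.Agent.MP_4f4d9f_gt.GPDefs

namespace Pool.Agent.MP_4f4d9f_gt.Sg

/-- Locally indicable: every nontrivial finitely generated subgroup maps onto `ℤ`. -/
def LocInd (Q : Type) [Group Q] : Prop :=
  ∀ K : Subgroup Q, K.FG → K ≠ ⊥ → ∃ φ : K →* Multiplicative ℤ, Function.Surjective φ

/-- Residually (locally indicable and amenable). -/
def ResLIA (K : Type) [Group K] : Prop :=
  ∀ g : K, g ≠ 1 → ∃ (Q : Type) (_ : Group Q) (φ : K →* Q), φ g ≠ 1 ∧ LocInd Q ∧ Folner Q Q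

/-- The trivial module `ℤ` has a projective resolution over `ℤK` whose term of degree `m` is
finitely generated. -/
def FinRes (K : Type) [Group K] (m : ℕ) : Prop :=
  ∃ P : CategoryTheory.ProjectiveResolution
      (ModuleCat.of (MonoidAlgebra ℤ K) (Representation.trivial ℤ K ℤ).asModule),
    Module.Finite (MonoidAlgebra ℤ K) (P.complex.X m)

end Pool.Agent.MP_4f4d9f_gt.Sg
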